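import Pool.Agent.N321.MN.Pos

set_option autoImplicit false

/-!
# MP_5e7226_co: where is `s(K, o)` as small as possible?

For every convex body `K` in `E^d` and every interior point `o` of `K` one has `s(K, o) ≥ d + 1`.
Let `best K` be the set of the interior points `o` with `s(K, o) = d + 1`; it is open. The question
is about the largest possible value of `s(K, o)`; here we show that the least possible value is
attained arbitrarily close to EVERY boundary point of EVERY convex body, exactly in the dimensions
`d ≤ 3`:

* if `d ≤ 3` then the boundary of every convex body `K` in `E^d` is contained in the closure of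
  `best K`; in particular every convex body in `E^3` has a nonempty open set of interior points `o`
  for which the faces can be strictly separated from `o` by four planes (in the language of
  illumination: every convex body in `E^3` has a permissible projective image, with the illuminated
  body being its polar, whose illumination number is `4`);
* for every `d ≥ 4` there is a convex body (the product of a simplex of dimension `d - 2` and a
  square) and a boundary point which has a neighbourhood in which `s(K, o) ≥ d + 2` for all `o`.

Proof for `d = 3`. Let `G` be the set of the good points; it is open, also as a function of `K`: if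
affine images of `K` converge locally to a closed convex set `C` without lines (usually unbounded)
and `C` has a good point then `K` has good points at the corresponding places. By the projective
invariance, every three-dimensional closed convex set without lines has a good point as soon as
every three-dimensional body has one. Near a point of a two-dimensional face `F` the body looks like
a half-cylinder over `F`, and the good points of `F` are dense in `F`. Near a point in the relative
interior of a maximal segment `F` we zoom orthogonally to `F`, in suitable unequal proportions, and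
either a limit set has a two-dimensional face or a projection without lines, or the faces of the
limit set are separated by two planes which are almost parallel to `F` and by two planes through
parallels of the exposed direction; this is the main step. Near an exposed point the caps of `K`, in
the position of the maximal simplex, converge to a closed convex set without lines. If all faces are
points, then every `o` is good.
-/

namespace Pool.Agent.Results.MP_5e7226_co.BestPointsNearBoundary

open scoped InnerProductSpace Topology
open Module Set

/-- `s(K, o) ≤ n`: there are at most `n` hyperplanes `{x | ⟪h.1, x⟫ = h.2}` such that every face of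
`K` (the set of the points of `K` at which a functional `⟪u, ·⟫`, `u ≠ 0`, is maximal on `K`) is
strictly separated from `o` by one of them. -/
def Separable {E : Type} [NormedAddCommGroup E] [InnerProductSpace ℝ E] (n : ℕ) (K : Set E)
    (o : E) : Prop :=
  ∃ H : Finset (E × ℝ), H.card ≤ n ∧ (∀ h ∈ H, h.1 ≠ 0) ∧
    ∀ u x₀ : E, u ≠ 0 → x₀ ∈ K → (∀ y ∈ K, ⟪u, y⟫_ℝ ≤ ⟪u, x₀⟫_ℝ) →
      ∃ h ∈ H, ⟪h.1, o⟫_ℝ < h.2 ∧ ∀ x ∈ K, ⟪u, x⟫_ℝ = ⟪u, x₀⟫_ℝ → h.2 < ⟪h.1, x⟫_ℝ

/-- `s(K, o) = n`. -/
def Exactly {E : Type} [NormedAddCommGroup E] [InnerProductSpace ℝ E] (n : ℕ) (K : Set E)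
    (o : E) : Prop :=
  Separable n K o ∧ ∀ m : ℕ, Separable m K o → n ≤ m

/-- The interior points `o` of `K` with `s(K, o) = d + 1`, where `d` is the dimension of the
space. -/
def best {E : Type} [NormedAddCommGroup E] [InnerProductSpace ℝ E] (K : Set E) : Set E :=
  {o | o ∈ interior K ∧ Exactly (finrank ℝ E + 1) K o}

/-- In dimension `d`: every boundary point of every convex body `K` is a limit of points of
`best K`. -/
def NearEveryBoundaryPoint (d : ℕ) : Prop :=
  ∀ (E : Type) [NormedAddCommGroup E] [InnerProductSpace ℝ E] [FiniteDimensional ℝ E],
    finrank ℝ E = d → ∀ K : Set E, Convex ℝ K → IsCompact K → (interior K).Nonempty →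
      frontier K ⊆ closure (best K)

/-- In every dimension `d ≥ 1`: `d + 1` is the least possible value of `s(K, o)`, and the set
`best K` is open. -/
def LeastValue : Prop :=
  ∀ (E : Type) [NormedAddCommGroup E] [InnerProductSpace ℝ E] [FiniteDimensional ℝ E],
    1 ≤ finrank ℝ E → ∀ K : Set E, Convex ℝ K → IsCompact K → (interior K).Nonempty →
      (∀ o ∈ interior K, ∀ n : ℕ, Separable n K o → finrank ℝ E + 1 ≤ n) ∧ IsOpen (best K)

/-- **The least possible value `d + 1` of `s(K, o)` is attained arbitrarily close to every boundary
point of every convex body in `E^d` if and only if `d ≤ 3`.** -/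
theorem result : (∀ d : ℕ, NearEveryBoundaryPoint d ↔ d ≤ 3) ∧ LeastValue := by
  refine ⟨fun d => ⟨fun h => ?_, fun hd E _ _ _ hE K hK hKc hint y hy => ?_⟩,
    fun E _ _ _ hE K hK hKc hint => ⟨fun o ho n hn => ?_, ?_⟩⟩
  · by_contra hcon
    obtain ⟨n, rfl⟩ : ∃ n, d = n + 2 := ⟨d - 2, by omega⟩
    have hn : 2 ≤ n := by omega
    have h1 := h (Pool.Agent.N321.MN.EE (Pool.Agent.N321.MN.Neg.V n)) (by
      rw [Pool.Agent.N321.MN.finrankv, finrank_euclideanSpace, Fintype.card_fin])
      (Pool.Agent.N321.MN.Neg.KK n) (Pool.Agent.N321.MN.Neg.KK_convex n)
      (Pool.Agent.N321.MN.Neg.KK_compact n) (Pool.Agent.N321.MN.Neg.KK_int n)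
    have h2 : Pool.Agent.N321.MN.Neg.yb n ∈ frontier (Pool.Agent.N321.MN.Neg.KK n) := by
      rw [frontier, (Pool.Agent.N321.MN.Neg.KK_closed n).closure_eq]
      exact ⟨Pool.Agent.N321.MN.Neg.yb_mem n, Pool.Agent.N321.MN.Neg.yb_not_int n⟩
    obtain ⟨o, ho1, ho2, ho3⟩ := mem_closure_iff.1 (h1 h2) _ (Pool.Agent.N321.MN.Neg.NN_open n)
      (Pool.Agent.N321.MN.Neg.yb_NN n)
    have h3 := Pool.Agent.N321.MN.Neg.needed hn ho1 ho2 ho3.1
    omega
  · subst hE
    have hE1 : 1 ≤ finrank ℝ E := by
      by_contra hcon
      have h0 : finrank ℝ E = 0 := by omega
      have : Subsingleton E := Module.finrank_zero_iff.1 h0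
      rw [frontier, hKc.isClosed.closure_eq] at hy
      obtain ⟨z, hz⟩ := hint
      rw [Subsingleton.elim z y] at hz
      exact hy.2 hz
    refine closure_mono (fun o ho => ?_) (Pool.Agent.N321.MN.near_low hd hK hKc hint hy)
    exact ⟨ho.1, Pool.Agent.N321.MN.G_sepd ho, fun m hm =>
      Pool.Agent.R753.SJ.lower hK hKc ho.1 hE1 hm⟩
  · exact Pool.Agent.R753.SJ.lower hK hKc ho hE hn
  · rw [isOpen_iff_mem_nhds]
    rintro o ⟨ho1, ho2, -⟩
    filter_upwards [isOpen_interior.mem_nhds ho1, Pool.Agent.N321.MN.sepd_open ho2] with p hp1 hp2
    exact ⟨hp1, hp2, fun m hm => Pool.Agent.R753.SJ.lower hK hKc hp1 hE hm⟩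

end Pool.Agent.Results.MP_5e7226_co.BestPointsNearBoundary
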