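import Pool.Agent.N321.MN.D4
import Pool.Agent.N321.MN.Pos

set_option autoImplicit false

/-!
# MP_5e7226_co: bodies for which `s(K, o)` is as small as possible for some `o`

For every convex body `K` in `E^d` and every interior point `o` of `K` one has `s(K, o) ≥ d + 1`.
Let `best K` be the (open) set of the interior points `o` with `s(K, o) = d + 1`. For `d ≤ 3` it
accumulates at every boundary point of `K` (`BestPointsNearBoundary`), for `d ≥ 4` this fails. Here
we show that `best K` is not empty for large classes of bodies in dimensions `d ≥ 4`.

* Dimension four. If `best K = ∅` then all proper exposed faces of `K` are points or segments, with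
  at least one segment, and all normal cones of `K` have dimension at most two. In other words,
  `best K` is nonempty as soon as `K` has a proper face of dimension at least two, or a boundary
  point at which the normal cone has dimension at least three, or is strictly convex. Moreover all
  points of two-dimensional exposed faces and all relative boundary points of three-dimensional
  exposed faces are limits of points of `best K`.
* All dimensions. The class `Good` of those compact convex sets (of any dimension in the space) is
  generated by the sets of dimension at most three, the sets all of whose proper exposed faces are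
  points, the four-dimensional sets as above, and the rule that a set with a facet (an exposed face
  of codimension one) in the class belongs to the class. If a convex body `K` in `E^d`, `d ≥ 1`,
  belongs to `Good` then `best K` is not empty.

Proof. Let `G` be the set of the good points; it is open, also as a function of `K`: if affine
images of `K` converge locally to a closed convex set `C` without lines and `C` has a good point
then `K` has good points. The limit at a facet `F` is a half-cylinder over `F`; at a vertex of `K`
(a point with a line-free tangent cone) it is a cone over a body of dimension `d - 1`, in dimension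
four a three-dimensional one. At a two-dimensional face `F` of a four-dimensional body we zoom
orthogonally to `F` with unequal proportions; either a limit set has a facet or a line-free
projection, or its faces are separated by two hyperplanes which are almost parallel to `F` and by
three hyperplanes extending lines in the plane of `F`. At a boundary point `y` of a four-dimensional
body with a three-dimensional normal cone let `a` be a unit vector orthogonal to the normal cone and
`e` an inner direction of it; we zoom with unequal proportions along `a` and orthogonally to `a`,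
and either a limit set has a large recession cone, or its faces are separated by two hyperplanes
with normals close to `a` and `-a`, tilted in the direction of `e`, and by three hyperplanes
extending lines in the plane orthogonal to `a` and `e`.
-/

namespace Pool.Agent.Results.MP_5e7226_co.BestPointsSomewhere

open scoped InnerProductSpace Topology
open Module Set

/-- `s(K, o) ≤ n`: there are at most `n` hyperplanes `{x | ⟪h.1, x⟫ = h.2}` such that every face of
`K` (the set of the points of `K` at which a functional `⟪u, ·⟫`, `u ≠ 0`, is maximal on `K`) is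
strictly separated from `o` by one of them. -/
def Separable {E : Type} [NormedAddCommGroup E] [InnerProductSpace ℝ E] (n : ℕ) (K : Set E)
    (o : E) : Prop :=
  ∃ H : Finset (E × ℝ), H.card ≤ n ∧ (∀ h ∈ H, h.1 ≠ 0) ∧
    ∀ u x₀ : E, u ≠ 0 → x₀ ∈ K → (∀ y ∈ K, ⟪u, y⟫_ℝ ≤ ⟪u, x₀⟫_ℝ) →
      ∃ h ∈ H, ⟪h.1, o⟫_ℝ < h.2 ∧ ∀ x ∈ K, ⟪u, x⟫_ℝ = ⟪u, x₀⟫_ℝ → h.2 < ⟪h.1, x⟫_ℝ

/-- `s(K, o) = n`. -/
def Exactly {E : Type} [NormedAddCommGroup E] [InnerProductSpace ℝ E] (n : ℕ) (K : Set E)
    (o : E) : Prop :=
  Separable n K o ∧ ∀ m : ℕ, Separable m K o → n ≤ m

/-- The interior points `o` of `K` with `s(K, o) = d + 1`, where `d` is the dimension of the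
space. -/
def best {E : Type} [NormedAddCommGroup E] [InnerProductSpace ℝ E] (K : Set E) : Set E :=
  {o | o ∈ interior K ∧ Exactly (finrank ℝ E + 1) K o}

/-- The dimension of a set. -/
noncomputable def dim {E : Type} [NormedAddCommGroup E] [InnerProductSpace ℝ E] (F : Set E) : ℕ :=
  finrank ℝ (vectorSpan ℝ F)

/-- The normal cone of `K` at `y`. -/
def normals {E : Type} [NormedAddCommGroup E] [InnerProductSpace ℝ E] (K : Set E) (y : E) :
    Set E :=
  {v | ∀ x ∈ K, ⟪v, x - y⟫_ℝ ≤ 0}

/-- The class `Good` of compact convex sets `K` in a Euclidean space `E`: sets of dimension at most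
three; sets all of whose proper exposed faces are points; sets of dimension four with a proper
exposed face of dimension at least two, or with a point at which the normal cone in `E` has
codimension at most one; sets with an exposed face of codimension one which is in the class. -/
inductive Good {E : Type} [NormedAddCommGroup E] [InnerProductSpace ℝ E] : Set E → Prop
  | low {K : Set E} : Convex ℝ K → IsCompact K → dim K ≤ 3 → Good K
  | round {K : Set E} : Convex ℝ K → IsCompact K →
      (∀ F : Set E, IsExposed ℝ K F → F ≠ K → F.Subsingleton) → Good K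
  | face {K F : Set E} : Convex ℝ K → IsCompact K → dim K = 4 → IsExposed ℝ K F → F ≠ K →
      2 ≤ dim F → Good K
  | corner {K : Set E} {y : E} : Convex ℝ K → IsCompact K → dim K = 4 → y ∈ K →
      finrank ℝ E ≤ finrank ℝ (Submodule.span ℝ (normals K y)) + 1 → Good K
  | facet {K F : Set E} : Convex ℝ K → IsCompact K → IsExposed ℝ K F → F.Nonempty →
      dim F + 1 = dim K → Good F → Good K

/-- All dimensions: every convex body in the class has an interior point `o` with
`s(K, o) = d + 1`. -/
def AllDimensions : Prop :=
  ∀ (E : Type) [NormedAddCommGroup E] [InnerProductSpace ℝ E] [FiniteDimensional ℝ E],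
    1 ≤ finrank ℝ E → ∀ K : Set E, Good K → (interior K).Nonempty →
      (best K).Nonempty ∧ IsOpen (best K)

/-- Dimension four: if no interior point `o` of the convex body `K` has `s(K, o) = 5` then all
proper exposed faces are points or segments, with at least one segment, and all normal cones have
dimension at most two; points of two-dimensional exposed faces and relative boundary points of
three-dimensional exposed faces are limits of points `o` with `s(K, o) = 5`. -/
def DimensionFour : Prop :=
  ∀ (E : Type) [NormedAddCommGroup E] [InnerProductSpace ℝ E] [FiniteDimensional ℝ E],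
    finrank ℝ E = 4 → ∀ K : Set E, Convex ℝ K → IsCompact K → (interior K).Nonempty →
      (best K = ∅ →
        (∀ F : Set E, IsExposed ℝ K F → F ≠ K → dim F ≤ 1) ∧
        (∃ F : Set E, IsExposed ℝ K F ∧ F ≠ K ∧ dim F = 1) ∧
        ∀ y ∈ K, finrank ℝ (Submodule.span ℝ (normals K y)) ≤ 2) ∧
      (∀ F : Set E, IsExposed ℝ K F → dim F = 2 → F ⊆ closure (best K)) ∧
      ∀ F : Set E, IsExposed ℝ K F → dim F = 3 → F \ intrinsicInterior ℝ F ⊆ closure (best K)

section

variable {E : Type} [NormedAddCommGroup E] [InnerProductSpace ℝ E] [FiniteDimensional ℝ E]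

lemma dim_full {K : Set E} (hK : Convex ℝ K) (hint : (interior K).Nonempty) :
    vectorSpan ℝ K = ⊤ := by
  rw [← AffineSubspace.affineSpan_eq_top_iff_vectorSpan_eq_top_of_nonempty ℝ E E
    (hint.mono interior_subset), ← hK.interior_nonempty_iff_affineSpan_eq_top]
  exact hint

/-- a proper exposed face has smaller dimension -/
lemma dim_face {K F : Set E} (hK : Convex ℝ K) (hF : IsExposed ℝ K F) (hFK : F ≠ K)
    (hne : F.Nonempty) : dim F < dim K := by
  obtain ⟨u, hu⟩ := Pool.Agent.N321.MN.exposed_normal hF hne
  have hle : vectorSpan ℝ F ≤ vectorSpan ℝ K := vectorSpan_mono ℝ hF.subset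
  refine lt_of_le_of_ne (Submodule.finrank_mono hle) fun h => hFK ?_
  have heq := Submodule.eq_of_le_of_finrank_eq hle h
  obtain ⟨p, hp⟩ := hne
  refine Subset.antisymm hF.subset fun x hx => ?_
  have h1 : x - p ∈ vectorSpan ℝ F := by
    rw [heq]
    exact vsub_mem_vectorSpan ℝ hx (hF.subset hp)
  have h2 := Pool.Agent.N321.MN.perp_span (Pool.Agent.N321.MN.face_const hu hp) _ h1
  rw [inner_sub_right] at h2
  rw [hu] at hp ⊢
  refine ⟨hx, fun y hy => ?_⟩
  have := hp.2 y hy
  linarith

lemma good_Gs {K : Set E} (h : Good K) : Convex ℝ K ∧ Pool.Agent.N321.MN.Gs K := by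
  induction h with
  | low hK hKc hd => exact ⟨hK, Pool.Agent.N321.MN.Gs_low hK hKc hd⟩
  | round hK hKc h => exact ⟨hK, Pool.Agent.N321.MN.Gs_round hK hKc h⟩
  | @face K F hK hKc h4 hF hFK h2 =>
    refine ⟨hK, ?_⟩
    have hne : F.Nonempty := by
      by_contra hcon
      rw [not_nonempty_iff_eq_empty] at hcon
      rw [dim, hcon, vectorSpan_empty, finrank_bot] at h2
      omega
    have hlt := dim_face hK hF hFK hne
    rcases (show dim F = 2 ∨ dim F = 3 by omega) with h | h
    · exact Pool.Agent.N321.MN.Gs_plane hK hKc h4 hF h
    · exact Pool.Agent.N321.MN.Gs_facet hK hKc hF hne (by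
        have h1 : finrank ℝ (vectorSpan ℝ F) = 3 := h
        have h2 : finrank ℝ (vectorSpan ℝ K) = 4 := h4
        omega) (Pool.Agent.N321.MN.Gs_low (hF.convex hK) (hF.isCompact hKc) (le_of_eq h))
  | corner hK hKc h4 hy hN => exact ⟨hK, Pool.Agent.N321.MN.Gs_corner hK hKc h4 hy hN⟩
  | facet hK hKc hF hne hd _ ih => exact ⟨hK, Pool.Agent.N321.MN.Gs_facet hK hKc hF hne hd ih.2⟩

lemma G_best {K : Set E} (hd : 1 ≤ finrank ℝ E) (hK : Convex ℝ K) (hKc : IsCompact K) :
    Pool.Agent.N321.MN.G (finrank ℝ E + 1) K ⊆ best K := fun o ho =>
  ⟨ho.1, Pool.Agent.N321.MN.G_sepd ho, fun _ hm =>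
    Pool.Agent.R753.SJ.lower hK hKc ho.1 hd hm⟩

lemma good_compact {K : Set E} (h : Good K) : IsCompact K := by
  cases h <;> assumption

lemma good_best {K : Set E} (hd : 1 ≤ finrank ℝ E) (h : Good K) (hint : (interior K).Nonempty) :
    (best K).Nonempty := by
  obtain ⟨hK, hG⟩ := good_Gs h
  exact (hG.body hK hint).mono (G_best hd hK (good_compact h))

end

/-- **Convex bodies with interior points `o` for which `s(K, o) = d + 1`.** -/
theorem result : AllDimensions ∧ DimensionFour := by
  refine ⟨fun E _ _ _ hd K hG hint => ⟨good_best hd hG hint, ?_⟩,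
    fun E _ _ _ h4 K hK hKc hint => ⟨fun hemp => ?_, fun F hF hF2 y hy => ?_,
      fun F hF hF3 y hy => ?_⟩⟩
  · have hK := (good_Gs hG).1
    have hKc := good_compact hG
    rw [isOpen_iff_mem_nhds]
    rintro o ⟨ho1, ho2, -⟩
    filter_upwards [isOpen_interior.mem_nhds ho1, Pool.Agent.N321.MN.sepd_open ho2] with p hp1 hp2
    exact ⟨hp1, hp2, fun m hm => Pool.Agent.R753.SJ.lower hK hKc hp1 hd hm⟩
  · have hdK : dim K = 4 := by
      rw [dim, dim_full hK hint, finrank_top, h4]
    have hbad : ¬ Good K := fun hG => by
      have := good_best (by omega) hG hint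
      rw [hemp] at this
      exact not_nonempty_empty this
    have h1 : ∀ F : Set E, IsExposed ℝ K F → F ≠ K → dim F ≤ 1 := by
      intro F hF hFK
      by_contra hcon
      exact hbad (Good.face hK hKc hdK hF hFK (by omega))
    refine ⟨h1, ?_, fun y hy => ?_⟩
    · by_contra hcon
      push Not at hcon
      refine hbad (Good.round hK hKc fun F hF hFK x hx y hy => ?_)
      have h2 := hcon F hF hFK
      have h3 := h1 F hF hFK
      have h4 : finrank ℝ (vectorSpan ℝ F) = 0 := by
        change dim F = 0
        omega
      have h5 := vsub_mem_vectorSpan ℝ hx hy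
      rw [Submodule.finrank_eq_zero.1 h4, Submodule.mem_bot, vsub_eq_sub, sub_eq_zero] at h5
      exact h5
    · by_contra hcon
      exact hbad (Good.corner hK hKc hdK hy (by omega))
  · have h1 := Pool.Agent.N321.MN.plane_body h4 hK hKc hint hF hF2 hy
    refine closure_mono ?_ h1
    have h2 := G_best (by omega) hK hKc
    rwa [h4] at h2
  · have h1 := Pool.Agent.N321.MN.solid_body h4 hK hKc hint hF hF3 hy.1 hy.2
    refine closure_mono ?_ h1
    have h2 := G_best (by omega) hK hKc
    rwa [h4] at h2

end Pool.Agent.Results.MP_5e7226_co.BestPointsSomewhere
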