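import Pool.Agent.N321.NB.Fin

set_option autoImplicit false

/-!
# MP_5e7226_co: arbitrary convex bodies near vertices, corners and points of positive curvature

How large is `s(K, o)` if `K` is an arbitrary convex body in `E^d` and `o` is close to a boundary
point `y` of `K`? (`NearBoundary` answers this for polytopes only.)

1. **Semicontinuity under blow-ups.** Let `K_k` be convex sets which converge locally to a convex
   set `C` with `0 ∈ int C`; `C` may be unbounded. If the polar set of `C` can be covered by `n`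
   translates of its interior, then `s(K_k, 0) ≤ n` for large `k`. (Apply this to linear images of
   `K - o` with `o → y`.)
2. **Vertices.** Let the tangent cone `T` of `K` at `y` be pointed (nothing else is assumed), `w` an
   interior point of `T`, `n ≥ 1`, and let `n` hyperplanes suffice for the section of `T` by the
   hyperplane `w + e^⊥` and its point `w`. Then `s(K, y + t w') ≤ n + 1` for all small `t > 0` and
   all `w'` close to `w`. So, if `N` hyperplanes suffice for all bodies of dimension `d - 1`, then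
   `s(K, o) ≤ N + 1` for the `o` near `y` in every cone `y + cone W`, `W ⊆ int T` compact; `N = 4`
   for `d = 3`, `N = 13` for `d = 4`. For `d = 3`, `s(K, y + t w') = 4`, the least possible value,
   unless the section of `T` is a quadrangle and `w` is the intersection point of its diagonals.
3. **Corners.** Let `K` have second-order contact at `y` with a finite intersection of ellipsoids
   `{v | Q_i(v) ≤ ⟪f_i, v⟫}` (for instance, let `K` be a finite intersection of bodies of class
   `C^2` with positive curvature), `m = d - dim span {f_i}`. Then the same is true with `m + n + 1`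
   instead of `n + 1`, where the section of `T = {v | ⟪f_i, v⟫ ≥ 0}` is taken orthogonally to
   `L = {f_i}^⊥` and `e`, so that it has the dimension `d - 1 - m`. For `d = 3` this gives
   `s(K, o) ≤ 5`, and `s(K, o) = 4` except possibly at a vertex, in one direction.
4. **Points of positive curvature.** If there is only one ellipsoid, then `s(K, o) = d + 1`, the
   least possible value, for all `o = y + v` close to `y` with `(1 + δ) Q(v) ≤ ⟪f, v⟫`: for all `o`
   in a neighbourhood of `y` relative to a slightly smaller ellipsoid. `K` may have arbitrary faces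
   elsewhere, and also small faces near `y`.

The proof of (2)-(4): after the linear map with the factors `t ^ (-1/2)` on `L` and `1 / t` on
the orthogonal complement of `L`, the sets `K - o` converge locally to an unbounded convex set `C`
(`T - w` in (2), the intersection of paraboloids or their cylinders in (3)). A hyperplane
`{⟪e, x⟫ = κ}` separates from `0` the faces of `K - o` which are far away, and the limits of the
others are faces of `C`, which meet the slice of `C` by `⟪e, x⟫ ≤ κ`; these are separated from `0`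
by `n + m` hyperplanes, whose normals must be positive on the directions of the rays of the face.
For the faces of `C` at the points `l` of `L` we use `m` steep hyperplanes through parallels of the
cone in all directions of `L` but one, and the `n` hyperplanes of the section turned in the
remaining direction.
-/

namespace Pool.Agent.Results.MP_5e7226_co.BoundaryBlowups

open scoped InnerProductSpace Topology
open Module Filter Pool.Agent.N321.NB

/-- `s(K, o) ≤ n`: there are at most `n` hyperplanes `{x | ⟪h.1, x⟫ = h.2}` such that every face of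
`K` (the set of the points of `K` at which a functional `⟪u, ·⟫`, `u ≠ 0`, is maximal on `K`) is
strictly separated from `o` by one of them. -/
def Separable {E : Type} [NormedAddCommGroup E] [InnerProductSpace ℝ E] (n : ℕ) (K : Set E)
    (o : E) : Prop :=
  ∃ H : Finset (E × ℝ), H.card ≤ n ∧ (∀ h ∈ H, h.1 ≠ 0) ∧
    ∀ u x₀ : E, u ≠ 0 → x₀ ∈ K → (∀ y ∈ K, ⟪u, y⟫_ℝ ≤ ⟪u, x₀⟫_ℝ) →
      ∃ h ∈ H, ⟪h.1, o⟫_ℝ < h.2 ∧ ∀ x ∈ K, ⟪u, x⟫_ℝ = ⟪u, x₀⟫_ℝ → h.2 < ⟪h.1, x⟫_ℝ

/-- `s(K, o) = n`. -/
def Exactly {E : Type} [NormedAddCommGroup E] [InnerProductSpace ℝ E] (n : ℕ) (K : Set E)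
    (o : E) : Prop :=
  Separable n K o ∧ ∀ m : ℕ, Separable m K o → n ≤ m

/-- `n` hyperplanes suffice for all convex bodies of dimension `j` and all their interior points. -/
def Suffice (n j : ℕ) : Prop :=
  ∀ (V : Type) [NormedAddCommGroup V] [InnerProductSpace ℝ V] [FiniteDimensional ℝ V],
    finrank ℝ V = j → ∀ C : Set V, Convex ℝ C → IsCompact C → ∀ p ∈ interior C, Separable n C p

/-- The intersection of `T` with the flat `w + L`, as a subset of the linear subspace `L` (`w`
corresponds to `0`). -/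
def slice {E : Type} [NormedAddCommGroup E] [InnerProductSpace ℝ E] (T : Set E) (w : E)
    (L : Submodule ℝ E) : Set L :=
  {l | w + (l : E) ∈ T}

/-- `S` is a quadrangle whose diagonals meet at the origin. -/
def Diagonals {V : Type} [NormedAddCommGroup V] [InnerProductSpace ℝ V] (S : Set V) : Prop :=
  ∃ (v w : V) (s t : ℝ), LinearIndependent ℝ ![v, w] ∧ 0 < s ∧ 0 < t ∧
    S = convexHull ℝ {v, -(s • v), w, -(t • w)}

/-- The polar set. -/
def polarSet {E : Type} [NormedAddCommGroup E] [InnerProductSpace ℝ E] (C : Set E) : Set E :=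
  {v | ∀ x ∈ C, ⟪v, x⟫_ℝ ≤ 1}

/-- `P` can be covered by `n` translates of its interior. -/
def Coverable {E : Type} [NormedAddCommGroup E] [InnerProductSpace ℝ E] (n : ℕ) (P : Set E) :
    Prop :=
  ∃ T : Finset E, T.card ≤ n ∧ P ⊆ ⋃ t ∈ T, (fun x => t + x) '' interior P

/-- The sets `K k` converge to `C` locally: every interior point of `C` is in almost all of them,
and every point outside of `C` has a neighbourhood which is disjoint from almost all of them. -/
def ConvergesLocally {E : Type} [NormedAddCommGroup E] (K : ℕ → Set E) (C : Set E) : Prop :=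
  (∀ z ∈ interior C, ∀ᶠ k in atTop, z ∈ K k) ∧
    ∀ z, z ∉ C → ∃ U ∈ 𝓝 z, ∀ᶠ k in atTop, Disjoint (K k) U

/-- The (closed) tangent cone of `K` at its point `y`. -/
def tangentCone {E : Type} [NormedAddCommGroup E] [InnerProductSpace ℝ E] (K : Set E) (y : E) :
    Set E :=
  closure {v | ∃ s : ℝ, 0 < s ∧ y + s • v ∈ K}

/-- `P o` for all the points `o = y + t w'` with small `t > 0` and `w'` close to `w`; and they are
interior points of `K`. -/
def Locally {E : Type} [NormedAddCommGroup E] [InnerProductSpace ℝ E] (K : Set E) (y w : E)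
    (P : E → Prop) : Prop :=
  ∃ ρ : ℝ, 0 < ρ ∧ ∀ (t : ℝ) (w' : E), 0 < t → t < ρ → dist w' w < ρ →
    y + t • w' ∈ interior K ∧ P (y + t • w')

/-- `P o` for all the points `o = y + t w` with small `t > 0` and `w ∈ W`, for every compact set
`W` of interior points of `T`; and they are interior points of `K`. -/
def Nontangentially {E : Type} [NormedAddCommGroup E] [InnerProductSpace ℝ E] (K : Set E) (y : E)
    (T : Set E) (P : E → Prop) : Prop :=
  ∀ W : Set E, IsCompact W → W ⊆ interior T → ∃ ρ : ℝ, 0 < ρ ∧ ∀ w ∈ W, ∀ t : ℝ, 0 < t → t < ρ →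
    y + t • w ∈ interior K ∧ P (y + t • w)

/-- Statement (2). The tangent cone at `y` is pointed, in the form: `c ‖x - y‖ ≤ ⟪e, x - y⟫` for
all `x ∈ K`. -/
def VertexBound {E : Type} [NormedAddCommGroup E] [InnerProductSpace ℝ E] (K : Set E) : Prop :=
  ∀ (y e : E) (c : ℝ), y ∈ K → ‖e‖ = 1 → 0 < c → (∀ x ∈ K, c * ‖x - y‖ ≤ ⟪e, x - y⟫_ℝ) →
    (∀ w ∈ interior (tangentCone K y), ∀ n : ℕ, 1 ≤ n →
      Separable n (slice (tangentCone K y) w (Submodule.span ℝ {e})ᗮ) 0 →
        Locally K y w (Separable (n + 1) K)) ∧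
    (∀ N : ℕ, 1 ≤ N → Suffice N (finrank ℝ E - 1) →
      Nontangentially K y (tangentCone K y) (Separable (N + 1) K)) ∧
    (finrank ℝ E = 3 → Nontangentially K y (tangentCone K y) (Separable 5 K) ∧
      ∀ w ∈ interior (tangentCone K y),
        Locally K y w (Exactly 4 K) ∨
          Diagonals (slice (tangentCone K y) w (Submodule.span ℝ {e})ᗮ)) ∧
    (finrank ℝ E = 4 → Nontangentially K y (tangentCone K y) (Separable 14 K))

/-- `K` has second-order contact at `y` with the intersection of the ellipsoids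
`{v | ⟪A i v, v⟫ ≤ ⟪f i, v⟫}`: near `y`, the set `K - y` is between the intersections of the
ellipsoids `{v | (1 + δ) ⟪A i v, v⟫ ≤ ⟪f i, v⟫}` and `{v | (1 - δ) ⟪A i v, v⟫ ≤ ⟪f i, v⟫}`, for
every `δ > 0`. -/
def Contact {E : Type} [NormedAddCommGroup E] [InnerProductSpace ℝ E] {ι : Type} (K : Set E)
    (y : E) (f : ι → E) (A : ι → E →L[ℝ] E) : Prop :=
  ∀ δ : ℝ, 0 < δ → ∃ r : ℝ, 0 < r ∧ ∀ v : E, ‖v‖ ≤ r →
    ((∀ i, (1 + δ) * ⟪A i v, v⟫_ℝ ≤ ⟪f i, v⟫_ℝ) → y + v ∈ K) ∧
    (y + v ∈ K → ∀ i, (1 - δ) * ⟪A i v, v⟫_ℝ ≤ ⟪f i, v⟫_ℝ)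

/-- The cone `{v | ⟪f i, v⟫ ≥ 0 for all i}`. -/
def coneOf {E : Type} [NormedAddCommGroup E] [InnerProductSpace ℝ E] {ι : Type} (f : ι → E) :
    Set E :=
  {v | ∀ i, 0 ≤ ⟪f i, v⟫_ℝ}

/-- The data of a corner `y` of `K`: unit vectors `f i`, positive definite forms, contact of `K`
with the intersection of the ellipsoids; `L` is the orthogonal complement of the `f i`, and `e` is a
unit vector orthogonal to `L` which is positive on the nonzero vectors of the cone orthogonal to
`L`. -/
def IsCorner {E : Type} [NormedAddCommGroup E] [InnerProductSpace ℝ E] {ι : Type} (K : Set E)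
    (y : E) (f : ι → E) (A : ι → E →L[ℝ] E) (L : Submodule ℝ E) (e : E) : Prop :=
  (∀ i, ‖f i‖ = 1) ∧ (∀ i, ∀ v : E, v ≠ 0 → 0 < ⟪A i v, v⟫_ℝ) ∧ Contact K y f A ∧
    (∀ v : E, v ∈ L ↔ ∀ i, ⟪f i, v⟫_ℝ = 0) ∧ ‖e‖ = 1 ∧ (∀ l ∈ L, ⟪e, l⟫_ℝ = 0) ∧
    ∀ v ∈ coneOf f, v ∈ Lᗮ → v ≠ 0 → 0 < ⟪e, v⟫_ℝ

/-- Statement (3). -/
def CornerBound {E : Type} [NormedAddCommGroup E] [InnerProductSpace ℝ E] (K : Set E) : Prop :=
  ∀ (ι : Type) [Finite ι] [Nonempty ι] (y : E) (f : ι → E) (A : ι → E →L[ℝ] E)
    (L : Submodule ℝ E) (e : E), IsCorner K y f A L e →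
    (∀ w ∈ interior (coneOf f), ∀ n : ℕ, 1 ≤ n →
      Separable n (slice (coneOf f) w (L ⊔ Submodule.span ℝ {e})ᗮ) 0 →
        Locally K y w (Separable (finrank ℝ L + n + 1) K)) ∧
    (∀ N : ℕ, 1 ≤ N → Suffice N (finrank ℝ E - 1 - finrank ℝ L) →
      Nontangentially K y (coneOf f) (Separable (finrank ℝ L + N + 1) K)) ∧
    (finrank ℝ E = 3 → Nontangentially K y (coneOf f) (Separable 5 K) ∧
      ∀ w ∈ interior (coneOf f),
        Locally K y w (Exactly 4 K) ∨
          (L = ⊥ ∧ Diagonals (slice (coneOf f) w (Submodule.span ℝ {e})ᗮ)))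

/-- Statement (4). -/
def CurvatureBound {E : Type} [NormedAddCommGroup E] [InnerProductSpace ℝ E] (K : Set E) : Prop :=
  ∀ (y f : E) (A : E →L[ℝ] E), ‖f‖ = 1 → (∀ v : E, v ≠ 0 → 0 < ⟪A v, v⟫_ℝ) →
    Contact K y (fun _ : Unit => f) (fun _ => A) → ∀ δ : ℝ, 0 < δ →
      ∃ ρ : ℝ, 0 < ρ ∧ ∀ v : E, v ≠ 0 → ‖v‖ < ρ → (1 + δ) * ⟪A v, v⟫_ℝ ≤ ⟪f, v⟫_ℝ →
        y + v ∈ interior K ∧ Exactly (finrank ℝ E + 1) K (y + v)

/-- a positive definite form is bounded from below -/
lemma posdef_bound {E : Type} [NormedAddCommGroup E] [InnerProductSpace ℝ E]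
    [FiniteDimensional ℝ E] {A : E →L[ℝ] E} (hA : ∀ v : E, v ≠ 0 → 0 < ⟪A v, v⟫_ℝ) :
    ∃ c : ℝ, 0 < c ∧ ∀ v : E, c * ‖v‖ ^ 2 ≤ Qf A v := by
  rcases (Metric.sphere (0 : E) 1).eq_empty_or_nonempty with h0 | h0
  · refine ⟨1, one_pos, fun v => ?_⟩
    rcases eq_or_ne v 0 with rfl | hv
    · simp [Qf]
    · exfalso
      have : ‖v‖⁻¹ • v ∈ Metric.sphere (0 : E) 1 := by
        rw [mem_sphere_zero_iff_norm, norm_smul, norm_inv, norm_norm,
          inv_mul_cancel₀ (norm_ne_zero_iff.2 hv)]
      rw [h0] at this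
      exact this
  · obtain ⟨v₀, hv₀, hmin⟩ := (isCompact_sphere (0 : E) 1).exists_isMinOn h0
      (f := Qf A) (Qf_cont A).continuousOn
    have hv1 : ‖v₀‖ = 1 := by simpa using hv₀
    have hv0 : v₀ ≠ 0 := by
      intro h1; rw [h1, norm_zero] at hv1; norm_num at hv1
    refine ⟨Qf A v₀, hA v₀ hv0, fun v => ?_⟩
    rcases eq_or_ne v 0 with rfl | hv
    · simp [Qf]
    · have hn : 0 < ‖v‖ := norm_pos_iff.2 hv
      have h1 : Qf A v₀ ≤ Qf A (‖v‖⁻¹ • v) := hmin (by
        rw [mem_sphere_zero_iff_norm, norm_smul, norm_inv, norm_norm, inv_mul_cancel₀ hn.ne'])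
      rw [Qf_smul] at h1
      have h2 := mul_le_mul_of_nonneg_right h1 (sq_nonneg ‖v‖)
      have h3 : ‖v‖⁻¹ ^ 2 * Qf A v * ‖v‖ ^ 2 = Qf A v := by field_simp
      linarith

/-- **Main theorem.** (1) Semicontinuity. (2) Vertices. (3) Corners. (4) Points of positive
curvature. -/
theorem result :
    (∀ (E : Type) [NormedAddCommGroup E] [InnerProductSpace ℝ E] [FiniteDimensional ℝ E]
      (C : Set E) (K : ℕ → Set E) (n : ℕ), Convex ℝ C → 0 ∈ interior C → (∀ k, Convex ℝ (K k)) →
      ConvergesLocally K C → Coverable n (polarSet C) →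
        ∀ᶠ k in atTop, 0 ∈ interior (K k) ∧ Separable n (K k) 0) ∧
    (∀ (E : Type) [NormedAddCommGroup E] [InnerProductSpace ℝ E] [FiniteDimensional ℝ E]
      (K : Set E), Convex ℝ K → IsCompact K → (interior K).Nonempty →
        VertexBound K ∧ CornerBound K ∧ CurvatureBound K) := by
  refine ⟨?_, ?_⟩
  · intro E _ _ _ C K n hC h0 hK hconv hcov
    have hpol : Pool.Agent.H985.Sep.polar C 0 = polarSet C := by
      ext v
      simp [Pool.Agent.H985.Sep.polar, polarSet]
    refine semi hC h0 (K := K) ⟨hK, hconv.1, fun φ x a hφ hx hxa => ?_⟩ (n := n) ?_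
    · by_contra ha
      obtain ⟨U, hU, hev⟩ := hconv.2 a ha
      obtain ⟨k, h1, h2⟩ := ((hφ.tendsto_atTop.eventually hev).and (hxa.eventually hU)).exists
      exact Set.disjoint_left.1 h1 (hx k) h2
    · rw [hpol]
      exact hcov
  · intro E _ _ _ K hK hKc hne
    have hlow : ∀ o ∈ interior K, ∀ m : ℕ, 1 ≤ finrank ℝ E → Separable m K o →
        finrank ℝ E + 1 ≤ m := fun o ho m hd hm =>
      Pool.Agent.R753.SJ.lower hK hKc ho hd hm
    refine ⟨?_, ?_, ?_⟩
    · intro y e c hy he hc hcK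
      refine ⟨fun w hw n hn hs => vertex hK hy hne hc he hcK hw hn hs,
        fun N hN hU W hW hWT => vertex_up hK hy hne hc he hcK hN hU hW hWT,
        fun hd => ⟨fun W hW hWT => ?_, fun w hw => ?_⟩, fun hd W hW hWT => ?_⟩
      · exact vertex_up hK hy hne hc he hcK (N := 4) (by norm_num)
          (by rw [hd]; exact up_low (j := 2) le_rfl) hW hWT
      · rcases vertex_three hd hK hy hne hc he hcK hw with ⟨ρ, hρ, h⟩ | h
        · refine Or.inl ⟨ρ, hρ, fun t w' ht htρ hd' => ?_⟩
          obtain ⟨h1, h2⟩ := h t w' ht htρ hd'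
          refine ⟨h1, h2, fun m hm => ?_⟩
          have := hlow _ h1 m (by omega) hm
          omega
        · exact Or.inr h
      · exact vertex_up hK hy hne hc he hcK (N := 13) (by norm_num)
          (by rw [hd]; exact up_three) hW hWT
    · rintro ι _ _ y f A L e ⟨hf, hA, hS, hL, he, heL, hpos⟩
      obtain ⟨c, hc, hcA⟩ : ∃ c : ℝ, 0 < c ∧ ∀ i, ∀ v : E, c * ‖v‖ ^ 2 ≤ Qf (A i) v := by
        choose c hc hcA using fun i => posdef_bound (hA i)
        obtain ⟨i₀, hi₀⟩ := Finite.exists_min c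
        refine ⟨c i₀, hc i₀, fun i v => ?_⟩
        exact (mul_le_mul_of_nonneg_right (hi₀ i) (sq_nonneg _)).trans (hcA i v)
      have hCo : Co f A L c := ⟨hf, hc, fun i x _ => hcA i x, hL⟩
      obtain ⟨c', hT⟩ := hCo.cone he heL hpos
      refine ⟨fun w hw n hn hs => corner hK hCo hS (hCo.int_T.1 hw) hT hn hs,
        fun N hN hU W hW hWT => corner_up hK hCo hS hT hN hU hW hWT,
        fun hd => ⟨fun W hW hWT => ?_, fun w hw => ?_⟩⟩
      · have hk := finrank_MM hT.e0 hT.perp
        have hU : ∀ j, j ≤ 2 → Up (2 ^ j) j := fun j hj => up_low hj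
        obtain ⟨ρ, hρ, h⟩ := corner_up hK hCo hS hT (N := 2 ^ (finrank ℝ E - 1 - finrank ℝ L))
          Nat.one_le_two_pow (hU _ (by omega)) hW hWT
        refine ⟨ρ, hρ, fun w hw t ht htρ => ⟨(h w hw t ht htρ).1,
          Sepd.mono (h w hw t ht htρ).2 ?_⟩⟩
        have hk' : finrank ℝ L = 0 ∨ finrank ℝ L = 1 ∨ finrank ℝ L = 2 := by omega
        rcases hk' with h' | h' | h' <;> rw [h', hd] <;> norm_num
      · rcases corner_three hd hK hCo hS hT hw with ⟨ρ, hρ, h⟩ | h
        · refine Or.inl ⟨ρ, hρ, fun t w' ht htρ hd' => ?_⟩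
          obtain ⟨h1, h2⟩ := h t w' ht htρ hd'
          refine ⟨h1, h2, fun m hm => ?_⟩
          have := hlow _ h1 m (by omega) hm
          omega
        · exact Or.inr h
    · intro y f A hf hA hS δ hδ
      obtain ⟨c, hc, hcA⟩ := posdef_bound hA
      obtain ⟨ρ, hρ, h⟩ := osc_one hK hf hc hcA hS hδ
      have hd : 1 ≤ finrank ℝ E := by
        have : Nontrivial E := ⟨f, 0, by
          intro h0; rw [h0, norm_zero] at hf; norm_num at hf⟩
        exact finrank_pos
      refine ⟨ρ, hρ, fun v hv hvρ hvQ => ?_⟩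
      obtain ⟨h1, h2⟩ := h v hv hvρ hvQ
      exact ⟨h1, h2, fun m hm => hlow _ h1 m hd hm⟩

end Pool.Agent.Results.MP_5e7226_co.BoundaryBlowups
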