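import Pool.Agent.N321.NB.Sharp

set_option autoImplicit false

/-!
# MP_5e7226_co: interior points close to the boundary of a polytope

How large is `s(K, o)` if `K` is a polytope and `o` is close to the boundary of `K`, anywhere: close
to a facet, an edge, a vertex or a face of any dimension?

1. Let `K` be a convex body, `F` the intersection of `K` with a supporting hyperplane `H`, `o'` a
   relative interior point of `F`, and let `K` be a cone near `o'` (every polytope is). Let `M` be
   the orthogonal complement of the direction of `F` in the direction of `H`. Then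
   `s(K, o) ≤ s'(F, o') + s'(K ∩ (o + M), o)` for all interior points `o` of `K` close to `o'`, with
   `s' = max(s, 1)`. The second set is a section of dimension `d - 1 - dim F`.
2. So, if `N_j` hyperplanes suffice for all convex bodies of dimension `j < d`, then
   `max_k (N_k + N_{d-1-k})` hyperplanes suffice for all polytopes in `E^d` and all interior points
   in a neighbourhood of the boundary; 14 if `d = 4`, and `2 ^ (d - 1) + 1` if the conjecture is
   true in lower dimensions. A polytope violating the conjecture in the least possible dimension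
   keeps the points `o` with `s(K, o) > 2 ^ d` away from its boundary.
3. `d = 3`: `s(K, o) ≤ 5` near the boundary, and in fact `s(K, o) = 4`, the least possible value,
   for all `o` close to a boundary point `y`, except if `y` is the intersection point of the
   diagonals of a quadrangular facet, or if `y` is a vertex and `o` is the intersection point of the
   diagonals of a quadrangular section of `K` near `y`, parallel to a fixed plane.
4. The bounds `5` and `2 ^ (d - 1) + 1` are attained arbitrarily close to the boundary.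

The proof of (1). A face `G` which contains `o'` contains `F` and is, near `o'`, the sum of `F` and a
face of the cone; a hyperplane in `o + M` separating the corresponding face of the section from `o`
spans a hyperplane with `F`, and this is shifted slightly. For the faces which do not contain `o'`
we take steep hyperplanes through parallels of the hyperplanes of `F` separating the faces of `F`
from `o'`: otherwise there are faces `G_N` with normal vectors `u_N` and points `x_{N,j}` on the
wrong sides, which converge to points of `F`; as `K` is a cone near `o'`, the component of `u_N`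
orthogonal to `F` increases on `x_{N,j} - o'` at most by `o(1)` times the norm of the component
`b_N` in the direction of `F` (in particular `b_N ≠ 0`), so that all the limits of the `x_{N,j}` are
in one proper face of `F`.
(3) uses Levi's theorem with its equality case (starting files). (4): prisms over cross-polytopes.
-/

namespace Pool.Agent.Results.MP_5e7226_co.NearBoundary

open scoped InnerProductSpace
open Module Pool.Agent.N321.NB

/-- `s(K, o) ≤ n`: there are at most `n` hyperplanes `{x | ⟪h.1, x⟫ = h.2}` such that every face of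
`K` (the set of the points of `K` at which a functional `⟪u, ·⟫`, `u ≠ 0`, is maximal on `K`) is
strictly separated from `o` by one of them. -/
def Separable {E : Type} [NormedAddCommGroup E] [InnerProductSpace ℝ E] (n : ℕ) (K : Set E)
    (o : E) : Prop :=
  ∃ H : Finset (E × ℝ), H.card ≤ n ∧ (∀ h ∈ H, h.1 ≠ 0) ∧
    ∀ u x₀ : E, u ≠ 0 → x₀ ∈ K → (∀ y ∈ K, ⟪u, y⟫_ℝ ≤ ⟪u, x₀⟫_ℝ) →
      ∃ h ∈ H, ⟪h.1, o⟫_ℝ < h.2 ∧ ∀ x ∈ K, ⟪u, x⟫_ℝ = ⟪u, x₀⟫_ℝ → h.2 < ⟪h.1, x⟫_ℝ

/-- The intersection of `K` with the flat `o + L`, as a subset of the linear subspace `L` (`o`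
corresponds to `0`). -/
def slice {E : Type} [NormedAddCommGroup E] [InnerProductSpace ℝ E] (K : Set E) (o : E)
    (L : Submodule ℝ E) : Set L :=
  {l | o + (l : E) ∈ K}

/-- In a neighbourhood of its point `o'` the set `K` is a cone with apex `o'`. -/
def ConicalAt {E : Type} [NormedAddCommGroup E] [InnerProductSpace ℝ E] (K : Set E) (o' : E) :
    Prop :=
  ∃ ε : ℝ, 0 < ε ∧ ∀ x ∈ K, ∀ s : ℝ, 0 ≤ s → s * ‖x - o'‖ ≤ ε → o' + s • (x - o') ∈ K

/-- `n` hyperplanes suffice for all convex bodies of dimension `j` and all their interior points. -/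
def Suffice (n j : ℕ) : Prop :=
  ∀ (V : Type) [NormedAddCommGroup V] [InnerProductSpace ℝ V] [FiniteDimensional ℝ V],
    finrank ℝ V = j → ∀ C : Set V, Convex ℝ C → IsCompact C → ∀ p ∈ interior C, Separable n C p

/-- Polytopes with interior points. -/
def IsPolytope {E : Type} [NormedAddCommGroup E] [InnerProductSpace ℝ E] (K : Set E) : Prop :=
  IsCompact K ∧ (interior K).Nonempty ∧
    ∃ I : Finset (E × ℝ), K = {x | ∀ h ∈ I, ⟪h.1, x⟫_ℝ ≤ h.2}

/-- All interior points `o` of `K` in some neighbourhood of the boundary of `K` have the property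
`P`. -/
def NearBoundary {E : Type} [NormedAddCommGroup E] (K : Set E) (P : E → Prop) : Prop :=
  ∃ ρ : ℝ, 0 < ρ ∧ ∀ o ∈ interior K, ∀ y ∈ frontier K, dist o y < ρ → P o

/-- `S` is a quadrangle whose diagonals meet at the origin. -/
def Diagonals {V : Type} [NormedAddCommGroup V] [InnerProductSpace ℝ V] (S : Set V) : Prop :=
  ∃ (v w : V) (s t : ℝ), LinearIndependent ℝ ![v, w] ∧ 0 < s ∧ 0 < t ∧
    S = convexHull ℝ {v, -(s • v), w, -(t • w)}

/-- Statement (1), the local bound: `o'` is a relative interior point of the face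
`F = {x ∈ K | ⟪e, x - o'⟫ = 0}` with the direction `L`, and `K` is a cone near `o'`. -/
def LocalBound {E : Type} [NormedAddCommGroup E] [InnerProductSpace ℝ E] (K : Set E) : Prop :=
  ∀ (o' e : E) (L : Submodule ℝ E), o' ∈ K → ‖e‖ = 1 → (∀ x ∈ K, 0 ≤ ⟪e, x - o'⟫_ℝ) →
    (∀ x ∈ K, ⟪e, x - o'⟫_ℝ = 0 → x - o' ∈ L) → 0 ∈ interior (slice K o' L) → ConicalAt K o' →
    ∀ n : ℕ, 1 ≤ n → Separable n (slice K o' L) 0 →
      ∃ ρ : ℝ, 0 < ρ ∧ ∀ o ∈ interior K, dist o o' < ρ → ∀ m : ℕ, 1 ≤ m →
        Separable m (slice K o (L ⊔ Submodule.span ℝ {e})ᗮ) 0 → Separable (n + m) K o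

/-- Statement (2): polytopes in a space of any dimension `d`, with the numbers `N j` of
hyperplanes which suffice in the dimensions `j < d`; `d = 4`; and the numbers `2 ^ j`. -/
def PolytopeBound {E : Type} [NormedAddCommGroup E] [InnerProductSpace ℝ E] (K : Set E) : Prop :=
  (∀ N : ℕ → ℕ, (∀ j, 1 ≤ N j) → (∀ j < finrank ℝ E, Suffice (N j) j) →
    NearBoundary K fun o => ∃ k, k < finrank ℝ E ∧
      Separable (N k + N (finrank ℝ E - 1 - k)) K o) ∧
  (finrank ℝ E = 4 → NearBoundary K (Separable 14 K)) ∧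
  ((∀ j < finrank ℝ E, Suffice (2 ^ j) j) →
    NearBoundary K (Separable (2 ^ (finrank ℝ E - 1) + 1) K))

/-- Statement (3): polytopes in three-dimensional space. -/
def ThreeSpaceBound {E : Type} [NormedAddCommGroup E] [InnerProductSpace ℝ E] (K : Set E) : Prop :=
  NearBoundary K (Separable 5 K) ∧
    ∀ y ∈ frontier K, ∃ e : E, ‖e‖ = 1 ∧ (∀ x ∈ K, 0 ≤ ⟪e, x - y⟫_ℝ) ∧
      ∃ ρ : ℝ, 0 < ρ ∧ ∀ o ∈ interior K, dist o y < ρ →
        (Separable 4 K o ∧ ∀ n : ℕ, Separable n K o → 4 ≤ n) ∨
        Diagonals (slice K y (Submodule.span ℝ {e})ᗮ) ∨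
        ((∀ x ∈ K, ⟪e, x - y⟫_ℝ = 0 → x = y) ∧
          Diagonals (slice K o (Submodule.span ℝ {e})ᗮ))

/-- `n` hyperplanes or more are needed for `K` and some interior points arbitrarily close to the
boundary. -/
def NeededNearBoundary {E : Type} [NormedAddCommGroup E] [InnerProductSpace ℝ E] (n : ℕ)
    (K : Set E) : Prop :=
  ∀ ρ : ℝ, 0 < ρ → ∃ o ∈ interior K, ∃ y ∈ frontier K, dist o y < ρ ∧
    ∀ m : ℕ, Separable m K o → n ≤ m

/-- **Main theorem.** (1) The local bound. (2) Polytopes of all dimensions. (3) Polytopes in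
three-dimensional space. (4) Sharpness. -/
theorem result :
    (∀ (E : Type) [NormedAddCommGroup E] [InnerProductSpace ℝ E] [FiniteDimensional ℝ E]
      (K : Set E), Convex ℝ K → IsCompact K → LocalBound K) ∧
    (∀ (E : Type) [NormedAddCommGroup E] [InnerProductSpace ℝ E] [FiniteDimensional ℝ E]
      (K : Set E), IsPolytope K → PolytopeBound K) ∧
    (∀ (E : Type) [NormedAddCommGroup E] [InnerProductSpace ℝ E] [FiniteDimensional ℝ E]
      (K : Set E), finrank ℝ E = 3 → IsPolytope K → ThreeSpaceBound K) ∧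
    (∀ d : ℕ, 2 ≤ d → ∃ K : Set (EuclideanSpace ℝ (Fin d)), IsPolytope K ∧
      NeededNearBoundary (2 ^ (d - 1) + 1) K) := by
  refine ⟨?_, ?_, ?_, ?_⟩
  · intro E _ _ _ K hK hKc o' e L h0 he hpos hfac hint hcon n hn hs
    obtain ⟨R, r, ε, h⟩ := sit_of hK hKc h0 he hpos hfac hint hcon
    exact h.near hn hs
  · rintro E _ _ _ K ⟨hKc, hi, I, rfl⟩
    have hgen : ∀ N : ℕ → ℕ, (∀ j, 1 ≤ N j) → (∀ j < finrank ℝ E, Up (N j) j) →
        ∃ ρ : ℝ, 0 < ρ ∧ ∀ o ∈ interior (Po I), ∀ y ∈ frontier (Po I), dist o y < ρ →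
          ∃ k, k < finrank ℝ E ∧ Pool.Agent.R753.SJ.Sepd (N k + N (finrank ℝ E - 1 - k)) (Po I) o :=
      fun N h1 h2 => poly_near I hKc hi N h1 h2
    refine ⟨fun N h1 h2 => hgen N h1 h2, fun hd => ?_, fun hc => ?_⟩
    · have hU : ∀ j < finrank ℝ E, Up (if j = 3 then 13 else 2 ^ j) j := by
        intro j hj
        split_ifs with h3
        · rw [h3]; exact up_three
        · exact up_low (by omega)
      obtain ⟨ρ, hρ, h⟩ := hgen (fun j => if j = 3 then 13 else 2 ^ j)
        (fun j => by
          show 1 ≤ if j = 3 then 13 else 2 ^ j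
          split_ifs
          · norm_num
          · exact Nat.one_le_two_pow) hU
      refine ⟨ρ, hρ, fun o ho y hy hdy => ?_⟩
      obtain ⟨k, hk, h2⟩ := h o ho y hy hdy
      refine Sepd.mono h2 ?_
      rw [hd] at hk ⊢
      interval_cases k <;> norm_num
    · obtain ⟨ρ, hρ, h⟩ := hgen (fun j => 2 ^ j) (fun j => Nat.one_le_two_pow) hc
      refine ⟨ρ, hρ, fun o ho y hy hdy => ?_⟩
      obtain ⟨k, hk, h2⟩ := h o ho y hy hdy
      refine Sepd.mono h2 ?_
      obtain ⟨l, hl⟩ : ∃ l, finrank ℝ E - 1 = k + l := ⟨finrank ℝ E - 1 - k, by omega⟩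
      have hkl : finrank ℝ E - 1 - k = l := by omega
      show 2 ^ k + 2 ^ (finrank ℝ E - 1 - k) ≤ 2 ^ (finrank ℝ E - 1) + 1
      rw [hkl, hl, pow_add]
      have h3 : 1 ≤ 2 ^ k := Nat.one_le_two_pow
      have h4 : 1 ≤ 2 ^ l := Nat.one_le_two_pow
      nlinarith
  · rintro E _ _ _ K hd ⟨hKc, hi, I, rfl⟩
    have hKv : Convex ℝ (Po I) := poly_convex' I
    have hU : ∀ j < finrank ℝ E, Up (2 ^ j) j := fun j hj => up_low (by omega)
    refine ⟨?_, fun y hy => ?_⟩
    · obtain ⟨ρ, hρ, h⟩ := poly_near I hKc hi (fun j => 2 ^ j) (fun j => Nat.one_le_two_pow) hU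
      refine ⟨ρ, hρ, fun o ho y hy hdy => ?_⟩
      obtain ⟨k, hk, h2⟩ := h o ho y hy hdy
      refine Sepd.mono h2 ?_
      rw [hd] at hk ⊢
      interval_cases k <;> norm_num
    · obtain ⟨e, L, R, r, ε, h, hint⟩ := poly_sit I hKc hi hy
      obtain ⟨ρ, hρ, h1⟩ := three hd h hint
      refine ⟨e, h.nrm, h.pos, ρ, hρ, fun o ho hdo => ?_⟩
      rcases h1 o ho hdo with h2 | ⟨-, h2⟩ | ⟨hL, h2⟩
      · refine Or.inl ⟨h2, fun n hn => ?_⟩
        have h3 := Pool.Agent.R753.SJ.lower hKv hKc ho (by omega) hn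
        rw [hd] at h3
        exact h3
      · exact Or.inr (Or.inl h2)
      · refine Or.inr (Or.inr ⟨fun x hx hx0 => ?_, h2⟩)
        have h3 := h.fac x hx hx0
        rw [Submodule.finrank_eq_zero.1 hL, Submodule.mem_bot] at h3
        exact sub_eq_zero.1 h3
  · intro d hd
    obtain ⟨m, rfl⟩ : ∃ m, d = m + 1 := ⟨d - 1, by omega⟩
    obtain ⟨I, hI, h⟩ := sharp_near m (by omega)
    refine ⟨Po I, ⟨hI, ?_, I, rfl⟩, h⟩
    obtain ⟨o, ho, -⟩ := h 1 one_pos
    exact ⟨o, ho⟩

end Pool.Agent.Results.MP_5e7226_co.NearBoundary
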